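import Pool.Agent.H775R3.PGMain

set_option autoImplicit false

/-!
# Every group is a maximal subgroup of a free projection-generated regular *-semigroup

`PG S` is the semigroup presented by generators `x_p`, `p` a projection of the regular
`*`-semigroup `S`, and relations `x_p² = x_p`, `(x_p x_q)² = x_p x_q`, `x_p x_q x_p = x_{pqp}`.
-/

namespace Pool.Agent.Results.MP_89ce39_al.EveryGroup

open Pool.Agent.H775R3.PGen

universe u

/-- For every group `G` there are a regular `*`-semigroup `S`, an idempotent `e` of `PG(P(S))` and
an isomorphism of `G` onto the `H`-class of `e`. -/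
theorem result (G : Type u) [Group G] :
    ∃ (S : Type u) (_ : RegStarSemigroup S) (e : PG S) (f : G →ₙ* PG S),
      e * e = e ∧ Function.Injective f ∧ Set.range f = {y | GreenH y e} :=
  ⟨SG G, inferInstance, gen (pX V.v1), CHom G, gen_idem _, C_injective, range_C⟩

end Pool.Agent.Results.MP_89ce39_al.EveryGroup
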